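import Mathlib
import Pool.Agent.H557.RG.MainE

/-!
# Generic rigidity: bipartite highly connected graphs of large girth are as hard as all graphs

For all `d ≥ 2`, `k` and `g` the generic rigidity (and the generic rank) in `ℝ^d` of an arbitrary
graph `G` on `n` vertices is reduced to that of a graph `H` with `O(n²)` vertices which is
bipartite, has girth at least `g` and minimum degree at least `k`, and is
`(d (d + 1) - 1)`-connected (`11`-connected for `d = 3`). All `d (d + 1)`-connected graphs are
generically rigid (Villányi). The reduction is a projection: `H` is the union of a fixed graph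
`A` and of one edge for each edge of `G` (one for each of its two orientations), at a place which
depends only on that edge.

Each edge of `G` is replaced by a rigid body, a vertex-transitive bipartite graph of large girth
and large degree, which is attached to one of its ends and to further vertices of `G` by single
edges in such a way that the body moves rigidly with these vertices, up to the one degree of
freedom which the edge takes away.
-/

set_option autoImplicit false

namespace Pool.Agent.Results.MP_37c7bf_co.BipartiteLargeGirth

open Pool.Agent.H283R2.DR Pool.Agent.H789R5 Pool.Agent.H557.RG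

/-- **Reduction of generic rigidity to bipartite highly connected graphs of large girth.** For all
`d ≥ 2`, `k`, `g` there is a constant `c₀` such that for every `n ≥ d (d + 1) - 1` there are a
graph `A` on a vertex set `U` with at most `c₀ n²` elements and, for each ordered pair `(x, y)` of
different elements of `Fin n`, a pair `b x y` of different vertices of `A` which is not an edge of
`A`, all of these pairs being different, such that for every graph `G` on `Fin n` the graph `H`
which arises from `A` by adding the edges `b x y` for the edges `x y` of `G` is
`(d (d + 1) - 1)`-connected, bipartite, of minimum degree at least `k` and of girth at least `g`,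
and has exactly as many degrees of freedom in `ℝ^d` as `G`: its generic rank is
`r_d(G) + d (|U| - n)`. It is generically rigid in `ℝ^d` if and only if `G` is. -/
theorem result (d k g : ℕ) (hd : 2 ≤ d) : ∃ c₀ : ℕ, ∀ n : ℕ, d * (d + 1) ≤ n + 1 →
    ∃ (U : Type) (_ : Fintype U) (A : SimpleGraph U) (b : Fin n → Fin n → Sym2 U),
      Fintype.card U ≤ c₀ * n ^ 2 ∧
      (∀ x y x' y', x ≠ y → x' ≠ y' → b x y = b x' y' → x = x' ∧ y = y') ∧
      (∀ x y, x ≠ y → b x y ∉ A.edgeSet ∧ ¬ (b x y).IsDiag) ∧
      ∀ (G : SimpleGraph (Fin n)) (H : SimpleGraph U),
        H = A ⊔ SimpleGraph.fromEdgeSet {e | ∃ x y, G.Adj x y ∧ e = b x y} →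
        KConnected (d * (d + 1) - 1) H ∧ (∀ x, k ≤ (H.neighborSet x).ncard) ∧ H.IsBipartite ∧
        (g : ℕ∞) ≤ H.egirth ∧ genRank d H + d * n = genRank d G + d * Fintype.card U ∧
        (GenRigid d H ↔ GenRigid d G) :=
  mainE d k g hd

end Pool.Agent.Results.MP_37c7bf_co.BipartiteLargeGirth
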