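import Mathlib
import Pool.Agent.H557.RG.MainA

/-!
# Generic rigidity: connectivity hypotheses do not help

Every graph `G` with at least `d (d + 1) - 1` vertices is extended to a `(d (d + 1) - 1)`-connected
graph (`11`-connected for `d = 3`) of arbitrarily large minimum degree which has exactly the same
number of degrees of freedom in `ℝ^d`, by a graph which depends only on the number of vertices of
`G` and has linear size. So deciding generic rigidity in `ℝ^d` for `(d (d + 1) - 1)`-connected graphs
is as hard as for all graphs, whereas all `d (d + 1)`-connected graphs are generically rigid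
(Villányi). The clusters which are attached consist of copies of any prescribed highly connected
rigid graph `R`. In `ℝ³` there is also such an extension by octahedra which preserves the counting
conditions; it leads to `5`-connected graphs, which is best possible under these conditions.
-/

set_option autoImplicit false

namespace Pool.Agent.Results.MP_37c7bf_co.ConnectivityIsNoHelp

open Pool.Agent.H283R2.DR Pool.Agent.H789R5 Pool.Agent.H557.RG

/-- **Universal highly connected extensions.** `G.map Function.Embedding.inl` is the graph `G` on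
the larger vertex set `V ⊕ W`.

(1) The explicit extension `ext R (gam hub) ζ` with prescribed bodies `R`.

(2) The same with properties instead of formulas: the new part consists of disjoint copies of `R`
and of edges such that each new vertex is on at most one of them.

(3) Complete bodies: for each `n ≥ d (d + 1) - 1` and each `k` there is a graph `A` on the vertices
`Fin n ⊕ W`, with `|W| = c n` for a constant `c` which depends on `d` and `k`, without edges inside
of `Fin n`, such that for every graph `G` on `Fin n` the graph `G ∪ A` is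
`(d (d + 1) - 1)`-connected, has minimum degree at least `k` and generic rank
`r_d(G) + d |W|`; it is generically rigid in `ℝ^d` if and only if `G` is.

(4) For each `n ≥ 6` there is a graph `A` on the vertices `Fin n ⊕ W` with `|W| = 180 n` and exactly
`3 |W|` edges, none of them inside of `Fin n`, such that for every graph `G` on `Fin n` the graph
`G ∪ A` is `5`-connected, satisfies the counting conditions (at most `3 k - 6` edges on any `k ≥ 3`
vertices) if and only if `G` does, and has generic rank `r_3(G) + 3 |W|`; it is generically rigid in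
`ℝ³` if and only if `G` is. -/
theorem result :
    (∀ (d : ℕ) (V B P T : Type) [Fintype V] [Fintype B] [Fintype P] [Fintype T] [DecidableEq V]
      (R : SimpleGraph T) (hub : B → V) (ζ : V × B × P → B → Option B ⊕ Fin (d + 1) → T),
      2 ≤ d → Fintype.card B + 1 = d * (d + 1) → Fintype.card B ≤ Fintype.card P →
      Function.Injective hub → (∀ c i, Function.Injective (ζ c i)) → GenRigid d R →
      KConnected (Fintype.card B) R → ∀ (G : SimpleGraph V)
      (H : SimpleGraph (V ⊕ (V × B × P) × (B × T))),
      H = G.map Function.Embedding.inl ⊔ ext R (gam hub) (fun c i z => ζ c i (Sum.inl z)) →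
      KConnected (Fintype.card B) H ∧
      genRank d H = genRank d G + d * Fintype.card ((V × B × P) × (B × T)) ∧
      (GenRigid d H ↔ GenRigid d G)) ∧
    (∀ (d : ℕ) (V T : Type) [Fintype V] [Fintype T] (R : SimpleGraph T) (k : ℕ), 2 ≤ d →
      d * (d + 1) ≤ Fintype.card V + 1 → (d + 1) ^ 2 ≤ Fintype.card T → GenRigid d R →
      KConnected (d * (d + 1) - 1) R →
      ∃ (C : Type) (_ : Fintype C) (A : SimpleGraph (V ⊕ C × (Fin (d * (d + 1) - 1) × T))),
        Fintype.card C = Fintype.card V * ((d * (d + 1) - 1) * (d * (d + 1) - 1 + k)) ∧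
        (∀ u v : V, ¬ A.Adj (Sum.inl u) (Sum.inl v)) ∧
        (∀ c i s t, A.Adj (Sum.inr (c, i, s)) (Sum.inr (c, i, t)) ↔ R.Adj s t) ∧
        (∀ c i s x y, A.Adj (Sum.inr (c, i, s)) x → A.Adj (Sum.inr (c, i, s)) y →
          (∀ t, x ≠ Sum.inr (c, i, t)) → (∀ t, y ≠ Sum.inr (c, i, t)) → x = y) ∧
        (∀ v : V, k ≤ (A.neighborSet (Sum.inl v)).ncard) ∧
        ∀ G : SimpleGraph V,
          KConnected (d * (d + 1) - 1) (G.map Function.Embedding.inl ⊔ A) ∧
          genRank d (G.map Function.Embedding.inl ⊔ A) =
            genRank d G + d * Fintype.card (C × (Fin (d * (d + 1) - 1) × T)) ∧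
          (GenRigid d (G.map Function.Embedding.inl ⊔ A) ↔ GenRigid d G)) ∧
    (∀ d k n : ℕ, 2 ≤ d → d * (d + 1) ≤ n + 1 →
      ∃ (W : Type) (_ : Fintype W) (A : SimpleGraph (Fin n ⊕ W)),
        Fintype.card W = n * ((d * (d + 1) - 1) ^ 2 * (d * (d + 1) - 1 + k) * ((d + 1) ^ 2 + k)) ∧
        (∀ u v : Fin n, ¬ A.Adj (Sum.inl u) (Sum.inl v)) ∧
        (∀ x, k ≤ (A.neighborSet x).ncard) ∧
        ∀ G : SimpleGraph (Fin n),
          KConnected (d * (d + 1) - 1) (G.map Function.Embedding.inl ⊔ A) ∧
          genRank d (G.map Function.Embedding.inl ⊔ A) = genRank d G + d * Fintype.card W ∧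
          (GenRigid d (G.map Function.Embedding.inl ⊔ A) ↔ GenRigid d G)) ∧
    (∀ n : ℕ, 6 ≤ n →
      ∃ (W : Type) (_ : Fintype W) (A : SimpleGraph (Fin n ⊕ W)),
        Fintype.card W = 180 * n ∧ A.edgeSet.ncard = 3 * Fintype.card W ∧
        (∀ u v : Fin n, ¬ A.Adj (Sum.inl u) (Sum.inl v)) ∧
        ∀ G : SimpleGraph (Fin n),
          KConnected 5 (G.map Function.Embedding.inl ⊔ A) ∧
          genRank 3 (G.map Function.Embedding.inl ⊔ A) = genRank 3 G + 3 * Fintype.card W ∧
          (G.map Function.Embedding.inl ⊔ A).edgeSet.ncard =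
            G.edgeSet.ncard + 3 * Fintype.card W ∧
          (Maxwell (G.map Function.Embedding.inl ⊔ A) ↔ Maxwell G) ∧
          (GenRigid 3 (G.map Function.Embedding.inl ⊔ A) ↔ GenRigid 3 G)) := by
  refine ⟨?_, ?_, ?_, ?_⟩
  · intro d V B P T _ _ _ _ _ R hub ζ hd hB hP hhub hζ hR hRc G H hH
    subst hH
    exact explicit hd hB hP hhub hζ hR hRc G
  · intro d V T _ _ R k hd hV hT hR hRc
    exact mainR hd V hV T R hT hR hRc k
  · intro d k n hd hn
    exact mainK hd k n hn
  · exact mainO

end Pool.Agent.Results.MP_37c7bf_co.ConnectivityIsNoHelp
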