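import Pool.Agent.H29.HK.Final4
import Pool.Agent.H29.HK.P_AltPair

/-!
# Generic rigidity in space of graphs with a mod 2 embedding in a surface

Let `G` be a graph with vertices `0, ..., n-1`. Draw `G` with the vertices on a convex curve and
straight edges, so that two edges without common end cross if and only if they are crossing chords.
We say that `G` has a mod 2 embedding of rank `b` if there are a symmetric bilinear form on
`(ℤ/2)^b`, a vector `y e` for every edge `e` and numbers modulo 2 `φ v e` (the edge `e` is pulled
over the vertex `v`) such that for any two edges `uv` and `wx` without common end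

  `[uv and wx cross] + φ u wx + φ v wx + φ w uv + φ x uv = ⟨y uv, y wx⟩`.

This is the algebraic form of an independently even drawing (edges without common end cross an even
number of times) of `G` on a closed surface of Euler genus `b`, where `y e` is the homology class
of `e` and `⟨ , ⟩` is the intersection form. In particular it holds with `b` the Euler genus if
`G` embeds in the surface.

Theorem. The generic rank of `G` in `ℝ³` is at least `|E| - 3 b`. So `G` is generically rigid in
`ℝ³` if it has at least `3 n - 6 + 3 b` edges (the number of edges of the triangulations of the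
surface with `n` vertices).

The proof: the space of stresses of a generic placement is dual to the degree two part of the face
ring of `G` modulo four generic linear forms. In characteristic two its dimension is at most `3 b`,
by an anisotropy argument: if all of `3 b` linear conditions hold for a functional `M` on this
space, then `∑ (∏ a) M(x_u x_v)² = 0` with squarefree monomials in the generic coefficients `a`, so
`M = 0`.
-/

set_option autoImplicit false

namespace Pool.Agent.Results.MP_37c7bf_co.ModTwoSurfaceGraphs

open Finset Pool.Agent.H283R2.DR Pool.Agent.H789R5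

/-- the chords `uv` and `wx` of a convex polygon with vertices `0, ..., n-1` (in this order) cross -/
def ChordsCross {n : ℕ} (u v w x : Fin n) : Prop :=
  (min u v < min w x ∧ min w x < max u v ∧ max u v < max w x) ∨
    (min w x < min u v ∧ min u v < max w x ∧ max w x < max u v)

open Classical in
/-- `G` has a mod 2 embedding of rank `b`: see the head of the file. Edges are written as sets of
two vertices, the value of the bilinear form with matrix `Q` as a double sum -/
def Mod2Embedding {n : ℕ} (G : SimpleGraph (Fin n)) (b : ℕ) : Prop :=
  ∃ (Q : Matrix (Fin b) (Fin b) (ZMod 2)) (y : Finset (Fin n) → Fin b → ZMod 2)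
    (φ : Fin n → Finset (Fin n) → ZMod 2), Q.IsSymm ∧
    ∀ u v w x : Fin n, G.Adj u v → G.Adj w x → u ≠ w → u ≠ x → v ≠ w → v ≠ x →
      (if ChordsCross u v w x then 1 else 0) + (φ u {w, x} + φ v {w, x}) +
          (φ w {u, v} + φ x {u, v}) =
        ∑ i, ∑ j, y {u, v} i * Q i j * y {w, x} j

/-- **Generic rigidity of graphs with a mod 2 embedding of rank `b`.** Here `genRank 3 G` is the
rank of the rigidity matrix of a generic placement in `ℝ³` and `GenRigid 3 G` means generic
rigidity in `ℝ³`. -/
theorem result (n b : ℕ) (G : SimpleGraph (Fin n)) (hM : Mod2Embedding G b) :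
    G.edgeSet.ncard ≤ genRank 3 G + 3 * b ∧
    (3 ≤ n → 3 * n - 6 + 3 * b ≤ G.edgeSet.ncard → GenRigid 3 G) := by
  classical
  obtain ⟨Q, y, φ, hQ, h⟩ := hM
  have hD : Pool.Agent.H29.HK.Data ((Pool.Agent.H29.HK.graphCx G).filter (fun σ => σ.card = 2))
      Q y (fun ρ τ => ∑ u ∈ ρ, φ u τ) := by
    refine ⟨hQ, ?_⟩
    intro σ hσ τ hτ hd
    have key : ∀ σ ∈ (Pool.Agent.H29.HK.graphCx G).filter (fun σ => σ.card = 2),
        ∃ u v, G.Adj u v ∧ σ = {u, v} := by
      intro σ hσ
      rw [mem_filter, Pool.Agent.H29.HK.graphCx, mem_filter] at hσ
      rcases hσ.1.2 with h1 | h1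
      · omega
      · exact h1
    obtain ⟨u, v, huv, rfl⟩ := key σ hσ
    obtain ⟨w, x, hwx, rfl⟩ := key τ hτ
    have h1 : u ≠ w := by
      rintro rfl
      exact disjoint_left.1 hd (mem_insert_self u {v}) (mem_insert_self u {x})
    have h2 : u ≠ x := by
      rintro rfl
      exact disjoint_left.1 hd (mem_insert_self u {v}) (by simp)
    have h3 : v ≠ w := by
      rintro rfl
      exact disjoint_left.1 hd (by simp) (mem_insert_self v {x})
    have h4 : v ≠ x := by
      rintro rfl
      exact disjoint_left.1 hd (by simp : v ∈ ({u, v} : Finset (Fin n))) (by simp)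
    have h5 := h u v w x huv hwx h1 h2 h3 h4
    have e1 : ({u, v} : Finset (Fin n)).erase u = {v} := by
      rw [erase_insert (by simpa using huv.ne)]
    have e2 : ({u, v} : Finset (Fin n)).erase v = {u} := by
      rw [pair_comm, erase_insert (by simpa using huv.ne')]
    have e3 : ({w, x} : Finset (Fin n)).erase w = {x} := by
      rw [erase_insert (by simpa using hwx.ne)]
    have e4 : ({w, x} : Finset (Fin n)).erase x = {w} := by
      rw [pair_comm, erase_insert (by simpa using hwx.ne')]
    rw [← h5, Pool.Agent.H29.HK.alt_pair u v w x huv.ne hwx.ne h1 h2 h3 h4, sum_pair huv.ne,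
      sum_pair hwx.ne, e1, e2, e3, e4]
    simp only [sum_singleton]
    have e5 : (if Pool.Agent.H29.HK.Chords u v w x then (1 : ZMod 2) else 0) =
        if ChordsCross u v w x then 1 else 0 := if_congr Iff.rfl rfl rfl
    rw [e5]
    ring
  have h1 := Pool.Agent.H29.HK.rigid' n b G Q y _ hD
  refine ⟨h1, fun hn h2 => ?_⟩
  obtain ⟨p, hp⟩ := exists_mg (Fin n) 3
  have h3 := genRank_add hp G
  rw [Fintype.card_fin] at h3
  rw [genRigid_iff hp (by rw [Fintype.card_fin]; exact hn)]
  omega

end Pool.Agent.Results.MP_37c7bf_co.ModTwoSurfaceGraphs
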