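import Pool.Agent.H913.Rig.Main

set_option autoImplicit false

/-!
# Generic rigidity of vertex-transitive graphs of prime order

Let `G` be a vertex-transitive graph whose number `n` of vertices is a prime.

1. If the degree of `G` is at least `2 d` then `G` is generically rigid in `ℝ^d`, for every `d`.
2. If moreover `n > 2` and `n > d (d + 1) / 2` then `G` is generically rigid in `ℝ^d` if and only
   if its degree is at least `2 d`; for `n ≥ 7` it is generically rigid in `ℝ³` if and only if its
   degree is at least six.
3. For `n ≥ 7` the generic rank of `G` in `ℝ³` is the minimum of `|E|` and `3 n - 6`, and the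
   generic rank in `ℝ^d` is the minimum of `|E|` and `d n - d (d + 1) / 2` for all `n > d ^ 3`.

The graph is a circulant graph. It is placed in `ℂ^d` by `x ↦ (χ(e₁ x), …, χ(e_d x))` with a
faithful character `χ` of `ℤ/n`; the Fourier transform splits the space of infinitesimal motions
into blocks, and a theorem of the type of Chebotarev's theorem on the minors of the Fourier matrix
of prime order (proved with a valuation of `ℂ` above `n`) shows that the blocks have maximal rank.
-/

namespace Pool.Agent.Results.MP_37c7bf_co.PrimeOrder

open Pool.Agent.H913.Rig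

theorem result :
    (∀ (d : ℕ) (V : Type) [Fintype V] (G : SimpleGraph V) [DecidableRel G.Adj],
      (Fintype.card V).Prime → VertexTransitive G → (∀ v, 2 * d ≤ G.degree v) → GenRigid d G) ∧
    (∀ (d : ℕ) (V : Type) [Fintype V] (G : SimpleGraph V) [DecidableRel G.Adj],
      (Fintype.card V).Prime → VertexTransitive G → 2 < Fintype.card V →
      d * (d + 1) < 2 * Fintype.card V → (GenRigid d G ↔ ∀ v, 2 * d ≤ G.degree v)) ∧
    (∀ (d : ℕ) (V : Type) [Fintype V] [DecidableEq V] (G : SimpleGraph V) [DecidableRel G.Adj],
      (Fintype.card V).Prime → VertexTransitive G → 2 < Fintype.card V →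
      ((d = 3 ∧ 7 ≤ Fintype.card V) ∨ d ^ 3 < Fintype.card V) →
      IsGreatest {r | ∃ q : V → Fin d → ℝ, (rigidityMatrix G q).rank = r}
        (min G.edgeFinset.card (d * Fintype.card V - d * (d + 1) / 2))) :=
  ⟨rigid_of_degree, rigid_iff, rank_formula⟩

end Pool.Agent.Results.MP_37c7bf_co.PrimeOrder
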